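import Pool.Agent.Helper40.LS.Basic

/-!
Project LS, module F4: consequences of the invariant.
-/

set_option autoImplicit false
open Classical Filter Topology

namespace Pool.Agent.Helper20.LS

open Pool.Agent.Helper40.LS
open Pool.Agent.Helper40

/-- hot columns are few -/
theorem hot_card {n : ℕ} {R U : Gr n} {h K : ℝ} (hh : 0 < h) (hn : 0 < (n : ℝ))
    (hK : ((U ∩ R).card : ℝ) ≤ h ^ 2 / 2 * n ^ 2 * K) (hK0 : K ≤ 1) :
    ((hot R U h).card : ℝ) ≤ h * n := by
  have h1 : ((hot R U h).card : ℝ) * (h / 2 * n) ≤ ((U ∩ R).card : ℝ) := by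
    rw [card_eq_sum]
    calc ((hot R U h).card : ℝ) * (h / 2 * n) = ∑ c ∈ hot R U h, (h / 2 * n) := by
          rw [Finset.sum_const, nsmul_eq_mul]
      _ ≤ ∑ c ∈ hot R U h, ((nb (U ∩ R) c).card : ℝ) := by
          refine Finset.sum_le_sum fun c hc => ?_
          rw [nb_inter]
          exact (Finset.mem_filter.1 hc).2
      _ ≤ ∑ c, ((nb (U ∩ R) c).card : ℝ) :=
          Finset.sum_le_sum_of_subset_of_nonneg (Finset.subset_univ _)
            fun _ _ _ => Nat.cast_nonneg _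
  have h2 : ((hot R U h).card : ℝ) * (h / 2 * n) ≤ (h * n) * (h / 2 * n) := by
    refine h1.trans (hK.trans ?_)
    have : 0 ≤ h ^ 2 / 2 * n ^ 2 := by positivity
    nlinarith
  exact le_of_mul_le_mul_right h2 (by positivity)

/-- the columns in the union of the matchings -/
theorem nb_allM {n : ℕ} (M0 : Fin n → Gr n) (hM : ∀ t, IsMatch (M0 t)) (c : Fin n) :
    (nb (allM M0) c).card ≤ (Finset.univ.filter fun t => c ∈ cols (M0 t)).card := by
  have h1 : nb (allM M0) c ⊆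
      (Finset.univ.filter fun t => c ∈ cols (M0 t)).biUnion fun t => nb (M0 t) c := by
    intro s hs
    rw [mem_nb, allM, Finset.mem_biUnion] at hs
    obtain ⟨t, -, ht⟩ := hs
    rw [Finset.mem_biUnion]
    refine ⟨t, ?_, by simpa using ht⟩
    simp only [Finset.mem_filter, Finset.mem_univ, true_and]
    exact mem_cols.2 ⟨s, ht⟩
  refine (Finset.card_le_card h1).trans (Finset.card_biUnion_le.trans ?_)
  have h2 : ∀ t ∈ Finset.univ.filter (fun t => c ∈ cols (M0 t)), (nb (M0 t) c).card ≤ 1 := by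
    intro t _
    rw [Finset.card_le_one]
    intro a ha b hb
    rw [mem_nb] at ha hb
    have := (hM t).1 _ ha _ hb rfl
    exact (Prod.mk.inj this).2
  refine (Finset.sum_le_card_nsmul _ _ 1 h2).trans (by simp)

theorem tr_allM {n : ℕ} (M0 : Fin n → Gr n) : tr (allM M0) = allM fun t => tr (M0 t) := by
  ext ⟨a, b⟩
  simp [allM, mem_tr']

/-- one side -/
theorem one_side {n : ℕ} {R U M : Gr n} {δ h ζ : ℝ} {t : ℕ} {Sy : Finset (Fin n)}
    (hdeg : ∀ c, |((nb R c).card : ℝ) - δ / 8 * n| ≤ ζ * n)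
    (hreg : ∀ c, (nb U c).card = t)
    (hcol : ∀ c, ((nb U c ∩ nb R c).card : ℝ) ≤ h * n)
    (hM : ∀ c, ((nb M c).card : ℝ) ≤ ζ * n)
    (hSy : ((Finset.univ \ Sy).card : ℝ) ≤ ζ * n)
    (ht : (t : ℝ) ≤ (1 - δ) * n) (hζ : 3 * ζ ≤ δ / 8) (hn : 0 ≤ (n : ℝ)) :
    (∀ c, (δ / 8 - h - 2 * ζ) * n ≤ ((nb (resv R U M) c).card : ℝ)) ∧
    (∀ c, ((nb R c \ nb (resv R U M) c).card : ℝ) ≤ (h + ζ) * n) ∧
    (∀ c, 3 / 4 * δ * n ≤ ((nb (free R U M) c ∩ Sy).card : ℝ)) := by
  have h2 : ∀ c, ((nb R c \ nb (resv R U M) c).card : ℝ) ≤ (h + ζ) * n := by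
    intro c
    have hsub : nb R c \ nb (resv R U M) c ⊆ (nb U c ∩ nb R c) ∪ nb M c := by
      intro s hs
      simp only [resv, Finset.mem_sdiff, mem_nb, Finset.mem_union, Finset.mem_inter] at hs ⊢
      tauto
    have h3 : ((nb R c \ nb (resv R U M) c).card : ℝ) ≤
        ((nb U c ∩ nb R c).card : ℝ) + ((nb M c).card : ℝ) := by
      exact_mod_cast (Finset.card_le_card hsub).trans (Finset.card_union_le _ _)
    linarith [hcol c, hM c]
  refine ⟨fun c => ?_, h2, fun c => ?_⟩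
  · have hsub : nb R c ⊆ nb (resv R U M) c ∪ (nb R c \ nb (resv R U M) c) := by
      intro s hs
      simp only [Finset.mem_sdiff, Finset.mem_union]
      tauto
    have h3 : ((nb R c).card : ℝ) ≤
        ((nb (resv R U M) c).card : ℝ) + ((nb R c \ nb (resv R U M) c).card : ℝ) := by
      exact_mod_cast (Finset.card_le_card hsub).trans (Finset.card_union_le _ _)
    have h4 := (abs_le.1 (hdeg c)).1
    have := h2 c
    linarith
  · have hsub : (Finset.univ : Finset (Fin n)) ⊆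
        (nb (free R U M) c ∩ Sy) ∪ ((nb U c ∪ nb R c) ∪ (nb M c ∪ (Finset.univ \ Sy))) := by
      intro s _
      simp only [free, Finset.mem_sdiff, mem_nb, Finset.mem_union, Finset.mem_inter,
        Finset.mem_univ, true_and]
      tauto
    have h3 := Finset.card_le_card hsub
    have h4 := Finset.card_union_le (nb (free R U M) c ∩ Sy)
      ((nb U c ∪ nb R c) ∪ (nb M c ∪ (Finset.univ \ Sy)))
    have h5 := Finset.card_union_le (nb U c ∪ nb R c) (nb M c ∪ (Finset.univ \ Sy))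
    have h6 := Finset.card_union_le (nb U c) (nb R c)
    have h7 := Finset.card_union_le (nb M c) (Finset.univ \ Sy)
    rw [Finset.card_univ, Fintype.card_fin] at h3
    have h8 : (n : ℝ) ≤ ((nb (free R U M) c ∩ Sy).card : ℝ) + (((nb U c).card : ℝ) +
        (nb R c).card + ((nb M c).card + (Finset.univ \ Sy).card)) := by
      exact_mod_cast (by omega : n ≤ (nb (free R U M) c ∩ Sy).card + ((nb U c).card +
        (nb R c).card + ((nb M c).card + (Finset.univ \ Sy).card)))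
    rw [hreg c] at h8
    have h9 := (abs_le.1 (hdeg c)).2
    have h10 := hM c
    have h11 : 3 * ζ * n ≤ δ / 8 * n := mul_le_mul_of_nonneg_right hζ hn
    nlinarith

/-- LS-F4: consequences of the invariant -/
theorem inv_facts {δ ε dA h z0 dC ζ : ℝ} (P : Par δ ε dA h z0 dC ζ) :
    ∀ᶠ n : ℕ in atTop, ∀ (R : Gr n) (σ : Fin n → Stat n) (M0 : Fin n → Gr n) (t : Fin n)
      (s : St n), Reserve R (δ / 8) ζ → Pre σ M0 ζ → ((t : ℕ) : ℝ) ≤ (1 - δ) * n →
      Inv δ z0 h R M0 t s → Psi δ t s < Real.exp (h * n / 16) →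
      (z0 ≤ zz δ z0 n t ∧ zz δ z0 n t ≤ h ^ 2) ∧
      ((hot R s.1 h).card : ℝ) ≤ h * n ∧ ((hot (tr R) (tr s.1) h).card : ℝ) ≤ h * n ∧
      ((allM M0).card : ℝ) ≤ ζ * n ^ 2 ∧
      (∀ c, (δ / 8 - h - 2 * ζ) * n ≤ ((nb (resv R s.1 (allM M0)) c).card : ℝ)) ∧
      (∀ c, (δ / 8 - h - 2 * ζ) * n ≤ ((nb (tr (resv R s.1 (allM M0))) c).card : ℝ)) ∧
      (∀ c, ((nb R c \ nb (resv R s.1 (allM M0)) c).card : ℝ) ≤ (h + ζ) * n) ∧
      (∀ c, ((nb (tr R) c \ nb (tr (resv R s.1 (allM M0))) c).card : ℝ) ≤ (h + ζ) * n) ∧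
      (∀ c, 3 / 4 * δ * n ≤ ((nb (free R s.1 (allM M0)) c ∩ act' (M0 t)).card : ℝ)) ∧
      (∀ c, 3 / 4 * δ * n ≤ ((nb (tr (free R s.1 (allM M0))) c ∩ act (M0 t)).card : ℝ)) := by
  have hδ := P.δ0
  have hh := P.h0
  have hz := P.zpos
  -- n^(-δ/8) → 0
  have hlim : Tendsto (fun n : ℕ => (n : ℝ) ^ (-(δ / 8))) atTop (𝓝 0) :=
    (tendsto_rpow_neg_atTop (by linarith : 0 < δ / 8)).comp tendsto_natCast_atTop_atTop
  have hev1 : ∀ᶠ n : ℕ in atTop, (n : ℝ) ^ (-(δ / 8)) < h / 32 :=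
    hlim.eventually (gt_mem_nhds (by linarith))
  have hev2 : ∀ᶠ n : ℕ in atTop, 8 / h ≤ (n : ℝ) :=
    tendsto_natCast_atTop_atTop.eventually (eventually_ge_atTop _)
  filter_upwards [hev1, hev2, eventually_gt_atTop 0] with n hn1 hn2 hn3 R σ M0 t s hR hP ht hI hPsi
  have hn0 : (0:ℝ) < n := by exact_mod_cast hn3
  have htn : ((t : ℕ) : ℝ) ≤ n := by exact_mod_cast t.2.le
  have hzlo : z0 ≤ zz δ z0 n t := by
    unfold zz
    have : (1:ℝ) ≤ (1 + 8 / (δ * n)) ^ (t : ℕ) :=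
      one_le_pow₀ (by have : 0 ≤ 8 / (δ * n) := by positivity
                      linarith)
    nlinarith
  have hzhi : zz δ z0 n t ≤ h ^ 2 := by
    refine le_trans ?_ P.z1
    unfold zz
    refine mul_le_mul_of_nonneg_left ?_ hz.le
    calc (1 + 8 / (δ * n)) ^ (t : ℕ) ≤ (Real.exp (8 / (δ * n))) ^ (t : ℕ) := by
          refine pow_le_pow_left₀ (by positivity) ?_ _
          have := Real.add_one_le_exp (8 / (δ * n))
          linarith
      _ = Real.exp (((t : ℕ) : ℝ) * (8 / (δ * n))) := by rw [← Real.exp_nat_mul]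
      _ ≤ Real.exp (8 / δ) := by
          refine Real.exp_le_exp.2 ?_
          have h1 : ((t : ℕ) : ℝ) * (8 / (δ * n)) ≤ n * (8 / (δ * n)) :=
            mul_le_mul_of_nonneg_right htn (by positivity)
          refine h1.trans (le_of_eq ?_)
          field_simp
  -- the number of low rows
  have hlc : ∀ c, Real.exp (s.2.1 c) ≤ Real.exp (h * n / 8) ∧
      Real.exp (s.2.2 c) ≤ Real.exp (h * n / 8) := by
    intro c
    have hD : (0:ℝ) < (1 + 2 * (n : ℝ) ^ (-(δ / 8))) ^ (t : ℕ) := by positivity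
    have h1 : (∑ c, (Real.exp (s.2.1 c) + Real.exp (s.2.2 c))) <
        Real.exp (h * n / 16) * (1 + 2 * (n : ℝ) ^ (-(δ / 8))) ^ (t : ℕ) := by
      have := hPsi
      unfold Psi at this
      rwa [div_lt_iff₀ hD] at this
    have h2 : Real.exp (s.2.1 c) + Real.exp (s.2.2 c) ≤
        ∑ c, (Real.exp (s.2.1 c) + Real.exp (s.2.2 c)) :=
      Finset.single_le_sum (f := fun c => Real.exp (s.2.1 c) + Real.exp (s.2.2 c))
        (fun c _ => by positivity) (Finset.mem_univ c)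
    have h3 : (1 + 2 * (n : ℝ) ^ (-(δ / 8))) ^ (t : ℕ) ≤ Real.exp (h * n / 16) := by
      calc (1 + 2 * (n : ℝ) ^ (-(δ / 8))) ^ (t : ℕ)
          ≤ (Real.exp (2 * (n : ℝ) ^ (-(δ / 8)))) ^ (t : ℕ) := by
            refine pow_le_pow_left₀ (by positivity) ?_ _
            have := Real.add_one_le_exp (2 * (n : ℝ) ^ (-(δ / 8)))
            linarith
        _ = Real.exp (((t : ℕ) : ℝ) * (2 * (n : ℝ) ^ (-(δ / 8)))) := by rw [← Real.exp_nat_mul]
        _ ≤ Real.exp (h * n / 16) := by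
            refine Real.exp_le_exp.2 ?_
            have h4 : (0:ℝ) ≤ (n : ℝ) ^ (-(δ / 8)) := by positivity
            have h5 : ((t : ℕ) : ℝ) * (2 * (n : ℝ) ^ (-(δ / 8))) ≤ n * (2 * (h / 32)) :=
              mul_le_mul htn (by linarith) (by positivity) hn0.le
            linarith
    have h4 : Real.exp (h * n / 16) * (1 + 2 * (n : ℝ) ^ (-(δ / 8))) ^ (t : ℕ) ≤
        Real.exp (h * n / 8) := by
      have h5 : Real.exp (h * n / 8) = Real.exp (h * n / 16) * Real.exp (h * n / 16) := by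
        rw [← Real.exp_add]; ring_nf
      rw [h5]
      exact mul_le_mul_of_nonneg_left h3 (Real.exp_pos _).le
    have h6 := Real.exp_pos (s.2.1 c : ℝ)
    have h7 := Real.exp_pos (s.2.2 c : ℝ)
    constructor <;> linarith
  have hlc1 : ∀ c, (s.2.1 c : ℝ) ≤ h * n / 8 := fun c => Real.exp_le_exp.1 (hlc c).1
  have hlc2 : ∀ c, (s.2.2 c : ℝ) ≤ h * n / 8 := fun c => Real.exp_le_exp.1 (hlc c).2
  have h8 : 8 ≤ h * n := by
    rw [div_le_iff₀ hh] at hn2; linarith
  have hζh : ζ * n ≤ h / 8 * n := mul_le_mul_of_nonneg_right P.ζ1 hn0.le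
  have hcol : ∀ c, ((nb s.1 c ∩ nb R c).card : ℝ) ≤ h * n := by
    intro c
    have h1 := hI.col c
    have h2 : ((Finset.univ.filter fun j : Fin n => (j : ℕ) < t ∧ c ∈ cols (M0 j)).card : ℝ) ≤
        ζ * n := by
      refine le_trans ?_ (hP.dg c)
      exact_mod_cast Finset.card_le_card (fun j hj => by
        simp only [Finset.mem_filter, Finset.mem_univ, true_and] at hj ⊢
        exact hj.2)
    have := hlc1 c
    linarith
  have hcol' : ∀ c, ((nb (tr s.1) c ∩ nb (tr R) c).card : ℝ) ≤ h * n := by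
    intro c
    have h1 := hI.col' c
    have h2 : ((Finset.univ.filter fun j : Fin n => (j : ℕ) < t ∧ c ∈ syms (M0 j)).card : ℝ) ≤
        ζ * n := by
      refine le_trans ?_ (hP.dg' c)
      exact_mod_cast Finset.card_le_card (fun j hj => by
        simp only [Finset.mem_filter, Finset.mem_univ, true_and] at hj ⊢
        exact hj.2)
    have := hlc2 c
    linarith
  have huse : ((s.1 ∩ R).card : ℝ) ≤ h ^ 2 / 2 * n ^ 2 * δ := by
    refine hI.use.trans ?_
    have h1 : δ / 2 * zz δ z0 n t ≤ δ / 2 * h ^ 2 := mul_le_mul_of_nonneg_left hzhi (by linarith)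
    have h2 : δ / 2 * zz δ z0 n t * n ^ 2 ≤ δ / 2 * h ^ 2 * n ^ 2 :=
      mul_le_mul_of_nonneg_right h1 (by positivity)
    linarith
  have huse' : ((tr s.1 ∩ tr R).card : ℝ) ≤ h ^ 2 / 2 * n ^ 2 * δ := by
    rw [← tr_inter, card_tr]; exact huse
  have hM : ∀ c, ((nb (allM M0) c).card : ℝ) ≤ ζ * n := fun c =>
    le_trans (by exact_mod_cast nb_allM M0 hP.mat c) (hP.dg c)
  have hM' : ∀ c, ((nb (tr (allM M0)) c).card : ℝ) ≤ ζ * n := by
    intro c
    rw [tr_allM]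
    refine le_trans ?_ (hP.dg' c)
    have h1 := nb_allM (fun t => tr (M0 t)) (fun t => (hP.mat t).tr) c
    simp only [cols_tr] at h1
    exact_mod_cast h1
  have hallM : ((allM M0).card : ℝ) ≤ ζ * n ^ 2 := by
    have h1 : ((allM M0).card : ℝ) ≤ ∑ t, ((M0 t).card : ℝ) := by
      exact_mod_cast Finset.card_biUnion_le
    have h2 : ∑ t, ((M0 t).card : ℝ) ≤ ∑ _t : Fin n, ζ * n :=
      Finset.sum_le_sum fun t _ => hP.sz t
    rw [Finset.sum_const, nsmul_eq_mul, Finset.card_univ, Fintype.card_fin] at h2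
    linarith
  have hz0 : z0 ≤ h ^ 2 := hzlo.trans hzhi
  have hδ1 := P.δ1
  have hh1 : h ≤ 1 := by
    have := P.h2
    nlinarith
  have hζ3 : 3 * ζ ≤ δ / 8 := by
    have h1 := P.ζ2
    have h2 : z0 ≤ 1 := by nlinarith
    nlinarith
  have hSy : ((Finset.univ \ act' (M0 t)).card : ℝ) ≤ ζ * n := by
    have h1 : Finset.univ \ act' (M0 t) = syms (M0 t) := by
      ext x; simp [act']
    rw [h1, (hP.mat t).card_syms]
    exact hP.sz t
  have hSy' : ((Finset.univ \ act (M0 t)).card : ℝ) ≤ ζ * n := by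
    have h1 : Finset.univ \ act (M0 t) = cols (M0 t) := by
      ext x; simp [act]
    rw [h1, (hP.mat t).card_cols]
    exact hP.sz t
  obtain ⟨a1, a2, a3⟩ := one_side hR.deg hI.reg hcol hM hSy ht hζ3 hn0.le
  obtain ⟨b1, b2, b3⟩ := one_side hR.deg' hI.reg' hcol' hM' hSy' ht hζ3 hn0.le
  refine ⟨⟨hzlo, hzhi⟩, hot_card hh hn0 huse hδ1.le, hot_card hh hn0 huse' hδ1.le, hallM, a1, ?_,
    a2, ?_, a3, ?_⟩
  · rw [tr_resv]; exact b1
  · rw [tr_resv]; exact b2
  · rw [tr_free]; exact b3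

end Pool.Agent.Helper20.LS
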