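import Pool.Agent.Helper40.LS.Basic
import Pool.Agent.Helper9.LR.Transfer
import Pool.Agent.Helper14.LR.Mono
import Pool.Agent.Helper80.LR.Main

/-!
Project LS, module Q16: from three independent graphs in each row to the triple system.
-/

set_option autoImplicit false
open Classical Filter Topology

namespace Pool.Agent.Helper20.LS

open Pool.Agent.Helper40.LS
open Pool.Agent.Helper40

/-- expansion of a product of sums over all sets -/
theorem sum_sets {X : Type} [Fintype X] (u v : X → ℝ) :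
    ∑ A : Finset X, ∏ x, (if x ∈ A then u x else v x) = ∏ x, (u x + v x) := by
  rw [Finset.prod_add u v Finset.univ, Finset.powerset_univ]
  refine Finset.sum_congr rfl fun A _ => ?_
  rw [Finset.prod_ite]
  congr 1
  · refine Finset.prod_congr ?_ fun _ _ => rfl
    ext x; simp
  · refine Finset.prod_congr ?_ fun _ _ => rfl
    ext x; simp

theorem wt_prod {X : Type} [Fintype X] (p : ℝ) (S : Finset X) :
    FL.wt p S = ∏ x : X, (if x ∈ S then p else 1 - p) := by
  rw [FL.wt, Finset.prod_ite, Finset.prod_const, Finset.prod_const]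
  congr 2
  · congr 1
    ext x; simp
  · rw [← Finset.card_compl]
    congr 1
    ext x; simp

/-- the union of two independent random sets, pointwise form -/
theorem union_pt {X : Type} [Fintype X] (a b : ℝ) (G : Finset X) :
    ∑ B : Finset X, ∑ A : Finset X, FL.wt a A * FL.wt b B * ind (A ∪ B = G) =
      FL.wt (1 - (1 - a) * (1 - b)) G := by
  have hind : ∀ A B : Finset X, ind (A ∪ B = G) =
      ∏ x, (if x ∈ A then (if x ∈ G then (1:ℝ) else 0) else
        (if x ∈ B then (if x ∈ G then 1 else 0) else (if x ∈ G then 0 else 1))) := by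
    intro A B
    by_cases h : A ∪ B = G
    · rw [ind_true h, Finset.prod_eq_one]
      intro x _
      rw [← h]
      by_cases h1 : x ∈ A <;> by_cases h2 : x ∈ B <;> simp [h1, h2]
    · rw [ind_false h]
      symm
      have : ∃ x, ¬ (x ∈ A ∪ B ↔ x ∈ G) := by
        by_contra hcon
        push Not at hcon
        exact h (Finset.ext hcon)
      obtain ⟨x, hx⟩ := this
      apply Finset.prod_eq_zero (Finset.mem_univ x)
      by_cases h1 : x ∈ A <;> by_cases h2 : x ∈ B <;> by_cases h3 : x ∈ G <;>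
        simp [h1, h2, h3] at hx ⊢
  have h1 : ∀ A B : Finset X, FL.wt a A * FL.wt b B * ind (A ∪ B = G) =
      ∏ x, (if x ∈ A then (a * (if x ∈ B then b else 1 - b) * (if x ∈ G then (1:ℝ) else 0)) else
        ((1 - a) * (if x ∈ B then b else 1 - b) *
          (if x ∈ B then (if x ∈ G then 1 else 0) else (if x ∈ G then 0 else 1)))) := by
    intro A B
    rw [hind, wt_prod, wt_prod, ← Finset.prod_mul_distrib, ← Finset.prod_mul_distrib]
    refine Finset.prod_congr rfl fun x _ => ?_
    by_cases h1 : x ∈ A <;> simp [h1]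
  simp only [h1]
  have h2 : ∀ B : Finset X, (∑ A : Finset X, ∏ x, (if x ∈ A then
        (a * (if x ∈ B then b else 1 - b) * (if x ∈ G then (1:ℝ) else 0)) else
        ((1 - a) * (if x ∈ B then b else 1 - b) *
          (if x ∈ B then (if x ∈ G then 1 else 0) else (if x ∈ G then 0 else 1))))) =
      ∏ x, (if x ∈ B then (if x ∈ G then b else 0) else
        (if x ∈ G then a * (1 - b) else (1 - a) * (1 - b))) := by
    intro B
    rw [sum_sets (fun x => a * (if x ∈ B then b else 1 - b) * (if x ∈ G then (1:ℝ) else 0))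
      (fun x => (1 - a) * (if x ∈ B then b else 1 - b) *
          (if x ∈ B then (if x ∈ G then 1 else 0) else (if x ∈ G then 0 else 1)))]
    refine Finset.prod_congr rfl fun x _ => ?_
    by_cases h1 : x ∈ B <;> by_cases h2 : x ∈ G <;> simp [h1, h2] <;> ring
  rw [Finset.sum_congr rfl fun B _ => h2 B, sum_sets, wt_prod]
  refine Finset.prod_congr rfl fun x _ => ?_
  by_cases h2 : x ∈ G <;> simp [h2] <;> ring

/-- the union of two independent random sets -/
theorem union_law0 {X : Type} [Fintype X] (a b : ℝ) (f : Finset X → ℝ) :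
    ∑ A : Finset X, FL.wt a A * ∑ B : Finset X, FL.wt b B * f (A ∪ B) =
      ∑ G, FL.wt (1 - (1 - a) * (1 - b)) G * f G := by
  have h : ∀ G : Finset X, FL.wt (1 - (1 - a) * (1 - b)) G * f G =
      ∑ A : Finset X, ∑ B : Finset X, FL.wt a A * FL.wt b B * ind (A ∪ B = G) * f G := by
    intro G
    rw [← union_pt a b G, Finset.sum_comm, Finset.sum_mul]
    refine Finset.sum_congr rfl fun A _ => ?_
    rw [Finset.sum_mul]
  rw [Finset.sum_congr rfl fun G _ => h G, Finset.sum_comm]
  refine Finset.sum_congr rfl fun A _ => ?_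
  rw [Finset.mul_sum, Finset.sum_comm]
  refine Finset.sum_congr rfl fun B _ => ?_
  rw [Finset.sum_eq_single (A ∪ B)]
  · rw [ind_true rfl]; ring
  · intro G _ hG
    rw [ind_false (fun h => hG h.symm)]; ring
  · intro h; exact absurd (Finset.mem_univ _) h

/-- the union of two independent random sets -/
theorem union_law {X : Type} [Fintype X] [d : DecidableEq X] (a b : ℝ) (f : Finset X → ℝ) :
    ∑ A : Finset X, FL.wt a A * ∑ B : Finset X, FL.wt b B * f (A ∪ B) =
      ∑ G, FL.wt (1 - (1 - a) * (1 - b)) G * f G := by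
  have h : d = fun a b => propDecidable (a = b) := Subsingleton.elim _ _
  subst h
  exact union_law0 a b f

/-- the union of the three graphs of a row -/
theorem row_law {n : ℕ} (pa pc : ℝ) (f : Gr n → ℝ) :
    ∑ x : Row n, rwt n pa pc x * f (x.1 ∪ (x.2.1 ∪ tr x.2.2)) =
      ∑ G, FL.wt (1 - (1 - pa) * (1 - (1 - (1 - pc) * (1 - pc)))) G * f G := by
  rw [sum_row pa pc (fun A C S => f (A ∪ (C ∪ tr S)))]
  have h1 : ∀ A : Gr n, (Ex pc fun C => Ex pc fun S => f (A ∪ (C ∪ tr S))) =
      ∑ D, FL.wt (1 - (1 - pc) * (1 - pc)) D * f (A ∪ D) := by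
    intro A
    have h2 : ∀ C : Gr n, (Ex pc fun S => f (A ∪ (C ∪ tr S))) =
        ∑ S, FL.wt pc S * f (A ∪ (C ∪ S)) := fun C => Ex_tr pc (fun S => f (A ∪ (C ∪ S)))
    simp only [h2]
    unfold Ex
    exact union_law pc pc (fun D => f (A ∪ D))
  simp only [h1]
  unfold Ex
  exact union_law pa _ f

/-- all rows -/
theorem rows_law {n : ℕ} {Y Z : Type} [Fintype Y] [Fintype Z] (w : Y → ℝ) (w' : Z → ℝ)
    (U : Y → Z) (h : ∀ z, ∑ y, w y * ind (U y = z) = w' z) (F : (Fin n → Z) → ℝ) :
    ∑ x : Fin n → Y, (∏ t, w (x t)) * F (fun t => U (x t)) = ∑ G : Fin n → Z,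
      (∏ t, w' (G t)) * F G := by
  have h1 : ∀ G : Fin n → Z, (∏ t, w' (G t)) * F G =
      ∑ x : Fin n → Y, (∏ t, w (x t)) * ind ((fun t => U (x t)) = G) * F G := by
    intro G
    have h2 : ∏ t, w' (G t) = ∏ t, ∑ y, w y * ind (U y = G t) :=
      Finset.prod_congr rfl fun t _ => (h (G t)).symm
    rw [h2, ← sum_prod_rows (fun t y => w y * ind (U y = G t)), Finset.sum_mul]
    refine Finset.sum_congr rfl fun x _ => ?_
    congr 1
    rw [Finset.prod_mul_distrib]
    congr 1
    by_cases hx : (fun t => U (x t)) = G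
    · rw [ind_true hx, Finset.prod_eq_one]
      intro t _
      rw [ind_true (congrFun hx t)]
    · rw [ind_false hx]
      have : ∃ t, ¬ U (x t) = G t := by
        by_contra hcon
        push Not at hcon
        exact hx (funext hcon)
      obtain ⟨t, ht⟩ := this
      exact Finset.prod_eq_zero (Finset.mem_univ t) (ind_false ht)
  rw [Finset.sum_congr rfl fun G _ => h1 G, Finset.sum_comm]
  refine Finset.sum_congr rfl fun x _ => ?_
  rw [Finset.sum_eq_single (fun t => U (x t))]
  · rw [ind_true rfl]; ring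
  · intro G _ hG
    rw [ind_false (fun h => hG h.symm)]; ring
  · intro h; exact absurd (Finset.mem_univ _) h

theorem sprinkle {n k : ℕ} {pa pc p : ℝ} (ha : 0 ≤ pa) (hc : 0 ≤ pc) (hp1 : p ≤ 1)
    (hp : pa + 2 * pc ≤ p) :
    1 - PR n pa pc (fun x =>
      ¬ Helper80.LR.Rect k fun t => (x t).1 ∪ ((x t).2.1 ∪ tr (x t).2.2)) ≤
      Helper80.LR.prRect n k p := by
  obtain ⟨q, hq⟩ : ∃ q, q = 1 - (1 - pa) * (1 - (1 - (1 - pc) * (1 - pc))) := ⟨_, rfl⟩
  have hq0 : 0 ≤ q := by
    have h1 : 0 ≤ 1 - pa := by linarith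
    have h2 : 0 ≤ 1 - pc := by linarith
    have h3 : (1 - pc) * (1 - pc) ≤ 1 := by nlinarith
    have h4 : (1 - pa) * ((1 - pc) * (1 - pc)) ≤ 1 := by
      have : 0 ≤ (1 - pc) * (1 - pc) := mul_nonneg h2 h2
      nlinarith
    rw [hq]; linarith
  have hqp : q ≤ p := by
    have h1 : 0 ≤ 1 - pa := by linarith
    have h3 : 1 - 2 * pc ≤ (1 - pc) * (1 - pc) := by nlinarith
    have h4 : (1 - pa) * (1 - 2 * pc) ≤ (1 - pa) * ((1 - pc) * (1 - pc)) :=
      mul_le_mul_of_nonneg_left h3 h1
    have h5 : 0 ≤ pa * pc := mul_nonneg ha hc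
    rw [hq]; nlinarith
  refine le_trans (le_of_eq ?_)
    (Helper80.LR.prRect_mono Helper14.LR.mono (n := n) (k := k) hq0 hqp hp1)
  rw [Helper9.LR.transfer n k q, PR_eq]
  have hsum : ∑ x : Fin n → Row n, ∏ t, rwt n pa pc (x t) = 1 := by
    rw [sum_prod_rows (fun _ y => rwt n pa pc y)]
    simp only [sum_rwt, Finset.prod_const_one]
  rw [← hsum, ← Finset.sum_sub_distrib]
  have h1 := rows_law (n := n) (Y := Row n) (Z := Gr n) (rwt n pa pc) (fun G => FL.wt q G)
    (fun x => x.1 ∪ (x.2.1 ∪ tr x.2.2)) (fun z => by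
      rw [hq]
      have := row_law (n := n) pa pc (fun G => ind (G = z))
      rw [this, Finset.sum_eq_single z]
      · rw [ind_true rfl, mul_one]
      · intro G _ hG
        rw [ind_false hG, mul_zero]
      · intro h; exact absurd (Finset.mem_univ _) h)
    (fun G => ind (Helper80.LR.Rect k G))
  have h2 : ∀ x : Fin n → Row n, (∏ t, rwt n pa pc (x t)) - (∏ t, rwt n pa pc (x t)) *
      ind (¬ Helper80.LR.Rect k fun t => (x t).1 ∪ ((x t).2.1 ∪ tr (x t).2.2)) =
      (∏ t, rwt n pa pc (x t)) *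
      ind (Helper80.LR.Rect k fun t => (x t).1 ∪ ((x t).2.1 ∪ tr (x t).2.2)) := by
    intro x
    by_cases h : Helper80.LR.Rect k fun t => (x t).1 ∪ ((x t).2.1 ∪ tr (x t).2.2)
    · rw [ind_false (not_not.2 h), ind_true h]; ring
    · rw [ind_true h, ind_false h]; ring
  rw [Finset.sum_congr rfl fun x _ => h2 x, h1, Helper80.LR.prN, Finset.sum_filter]
  refine Finset.sum_congr rfl fun G _ => ?_
  have h3 : ∏ t, FL.wt q (G t) = ∏ t, Helper80.LR.wt n q (G t) := by
    refine Finset.prod_congr rfl fun t _ => ?_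
    rw [FL.wt, Helper80.LR.wt]
    have : Fintype.card (Fin n × Fin n) = n ^ 2 := by simp [sq]
    rw [this]
  rw [h3]
  unfold ind
  split_ifs <;> simp

end Pool.Agent.Helper20.LS
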